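import Mathlib

set_option autoImplicit false

/-!
# Extremal point-line configurations that are not sections of a lattice

Points `(x, -y)` with `x, y ∈ ℤ[√2]` having nonnegative coordinates below `N` and `4 N M`; lines
`y = s x - t` with `-s ∈ ℤ[√2]`, `t ∈ ℤ[√2]` having nonnegative coordinates below `M` and `N M`.
-/

namespace Pool.Agent.Results.MP_fad2aa_co.NumberFieldGrid

open Matrix

/-- `ℓ` is a line of the plane. -/
def IsLine (ℓ : Set (ℝ × ℝ)) : Prop :=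
  ∃ a b c : ℝ, (a ≠ 0 ∨ b ≠ 0) ∧ ℓ = {p | a * p.1 + b * p.2 = c}

/-- The number of incidences. -/
noncomputable def incidences (P : Finset (ℝ × ℝ)) (L : Finset (Set (ℝ × ℝ))) : ℕ :=
  Set.ncard {q : (ℝ × ℝ) × Set (ℝ × ℝ) | q.1 ∈ P ∧ q.2 ∈ L ∧ q.1 ∈ q.2}

/-- The non-vertical line `y = s x - t` whose dual point is `(s, t)`. -/
def lineOf (d : ℝ × ℝ) : Set (ℝ × ℝ) := {p | p.2 = d.1 * p.1 - d.2}

/-- The homogeneous coordinates of the image of `p` under the projective map with matrix `T`. -/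
noncomputable def homog (T : Matrix (Fin 3) (Fin 3) ℝ) (p : ℝ × ℝ) : Fin 3 → ℝ :=
  T *ᵥ ![p.1, p.2, 1]

/-- The projective transformation with matrix `T` sends no point of `X` to infinity and maps `X`
into the lattice section `{1, …, a} × {1, …, b}`. -/
def MapsIntoSection (T : Matrix (Fin 3) (Fin 3) ℝ) (X : Finset (ℝ × ℝ)) (a b : ℕ) : Prop :=
  ∀ p ∈ X, homog T p 2 ≠ 0 ∧
    ∃ i ∈ Finset.Icc 1 a, ∃ j ∈ Finset.Icc 1 b,
      homog T p 0 / homog T p 2 = i ∧ homog T p 1 / homog T p 2 = j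

/-- Some projective transformation maps `X` into a lattice section of size at most `s`. -/
def InProjectiveSection (X : Finset (ℝ × ℝ)) (s : ℝ) : Prop :=
  ∃ T : Matrix (Fin 3) (Fin 3) ℝ, T.det ≠ 0 ∧ ∃ a b : ℕ, (a : ℝ) * b ≤ s ∧ MapsIntoSection T X a b

/-- Alternative (a) of Q1. -/
def AltA (c C : ℝ) (P : Finset (ℝ × ℝ)) : Prop :=
  ∃ P' ⊆ P, c * P.card ≤ P'.card ∧ InProjectiveSection P' (C * P.card)

/-- Alternative (b) of Q1: `D'` is the set of the dual points of the lines in `L'`. -/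
def AltB (c C : ℝ) (L : Finset (Set (ℝ × ℝ))) : Prop :=
  ∃ D' : Finset (ℝ × ℝ), (∀ d ∈ D', lineOf d ∈ L) ∧ c * L.card ≤ D'.card ∧
    InProjectiveSection D' (C * L.card)

/-- The element `a + b √2`. -/
noncomputable def el (p : ℤ × ℤ) : ℝ := p.1 + p.2 * √2

theorem sqrt2_indep {a b : ℤ} (h : (a : ℝ) + b * √2 = 0) : a = 0 ∧ b = 0 := by
  have hb : b = 0 := by
    by_contra hb
    have h1 : √2 = ((-a / b : ℚ) : ℝ) := by
      push_cast
      have : (b : ℝ) ≠ 0 := by exact_mod_cast hb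
      field_simp
      linarith
    exact irrational_sqrt_two ⟨_, h1.symm⟩
  subst hb
  refine ⟨?_, rfl⟩
  simpa using h

theorem el_injective : Function.Injective el := by
  rintro ⟨a, b⟩ ⟨c, d⟩ h
  have h1 : ((a - c : ℤ) : ℝ) + ((b - d : ℤ) : ℝ) * √2 = 0 := by
    simp only [el] at h
    push_cast
    linarith
  obtain ⟨h2, h3⟩ := sqrt2_indep h1
  rw [Prod.mk.injEq]
  omega

/-- A rational-valued Möbius map that is defined at three points of a fibre
`{a + b √2 : b ∈ ℤ}` and at a fourth point has the fourth point in the same fibre. -/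
theorem moebius_fibre {α β γ δ : ℝ} (hD : α * δ - β * γ ≠ 0) {a a' b₁ b₂ b₃ b' : ℤ}
    {u₁ u₂ u₃ u : ℤ} (h12 : b₁ ≠ b₂) (h13 : b₁ ≠ b₃) (h23 : b₂ ≠ b₃)
    (d₁ : γ * el (a, b₁) + δ ≠ 0) (d₂ : γ * el (a, b₂) + δ ≠ 0) (d₃ : γ * el (a, b₃) + δ ≠ 0)
    (d : γ * el (a', b') + δ ≠ 0)
    (e₁ : (α * el (a, b₁) + β) / (γ * el (a, b₁) + δ) = u₁)
    (e₂ : (α * el (a, b₂) + β) / (γ * el (a, b₂) + δ) = u₂)
    (e₃ : (α * el (a, b₃) + β) / (γ * el (a, b₃) + δ) = u₃)
    (e : (α * el (a', b') + β) / (γ * el (a', b') + δ) = u) : a' = a := by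
  by_contra hne
  -- differences of values
  have hdiff : ∀ x y : ℝ, γ * x + δ ≠ 0 → γ * y + δ ≠ 0 →
      (α * x + β) / (γ * x + δ) - (α * y + β) / (γ * y + δ) =
        (α * δ - β * γ) * (x - y) / ((γ * x + δ) * (γ * y + δ)) := by
    intro x y hx hy
    rw [div_sub_div _ _ hx hy]
    congr 1
    ring
  have h13' := hdiff _ _ d₁ d₃
  have h20' := hdiff _ _ d₂ d
  have h10' := hdiff _ _ d₁ d
  have h23' := hdiff _ _ d₂ d₃
  rw [e₁, e₃] at h13'
  rw [e₂, e] at h20'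
  rw [e₁, e] at h10'
  rw [e₂, e₃] at h23'
  have hs : √2 ≠ 0 := by positivity
  have key : ((u₁ : ℝ) - u₃) * (u₂ - u) * ((el (a, b₁) - el (a', b')) * (el (a, b₂) - el (a, b₃)))
      = ((u₁ : ℝ) - u) * (u₂ - u₃) *
        ((el (a, b₁) - el (a, b₃)) * (el (a, b₂) - el (a', b'))) := by
    rw [h13', h20', h10', h23']
    field_simp
  have x23 : el (a, b₂) - el (a, b₃) = ((b₂ - b₃ : ℤ) : ℝ) * √2 := by
    simp only [el]; push_cast; ring
  have x13 : el (a, b₁) - el (a, b₃) = ((b₁ - b₃ : ℤ) : ℝ) * √2 := by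
    simp only [el]; push_cast; ring
  have x10 : el (a, b₁) - el (a', b') = ((a - a' : ℤ) : ℝ) + ((b₁ - b' : ℤ) : ℝ) * √2 := by
    simp only [el]; push_cast; ring
  have x20 : el (a, b₂) - el (a', b') = ((a - a' : ℤ) : ℝ) + ((b₂ - b' : ℤ) : ℝ) * √2 := by
    simp only [el]; push_cast; ring
  rw [x23, x13, x10, x20] at key
  set U : ℤ := (u₁ - u₃) * (u₂ - u) * (b₂ - b₃) with hU
  set W : ℤ := (u₁ - u) * (u₂ - u₃) * (b₁ - b₃) with hW
  have key2 : (((U - W) * (a - a') : ℤ) : ℝ) +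
      ((U * (b₁ - b') - W * (b₂ - b') : ℤ) : ℝ) * √2 = 0 := by
    have : √2 * ((((U - W) * (a - a') : ℤ) : ℝ) +
      ((U * (b₁ - b') - W * (b₂ - b') : ℤ) : ℝ) * √2) = 0 := by
      rw [hU, hW]
      push_cast at key ⊢
      linear_combination key
    rcases mul_eq_zero.1 this with h | h
    · exact absurd h hs
    · exact h
  obtain ⟨k1, k2⟩ := sqrt2_indep key2
  have hUW : U = W := by
    rcases mul_eq_zero.1 k1 with h | h
    · omega
    · omega
  rw [← hUW] at k2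
  have hU0 : U = 0 := by
    have : U * (b₁ - b₂) = 0 := by linear_combination k2
    rcases mul_eq_zero.1 this with h | h
    · exact h
    · omega
  have n13 : (u₁ : ℤ) - u₃ ≠ 0 := by
    intro h
    have h1 : ((u₁ : ℝ) - u₃) = 0 := by exact_mod_cast h
    rw [h1] at h13'
    have : (α * δ - β * γ) * (el (a, b₁) - el (a, b₃)) = 0 := by
      rcases div_eq_zero_iff.1 h13'.symm with h | h
      · exact h
      · exact absurd h (mul_ne_zero d₁ d₃)
    rcases mul_eq_zero.1 this with h | h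
    · exact hD h
    · have := el_injective (sub_eq_zero.1 h)
      rw [Prod.mk.injEq] at this
      exact h13 this.2
  have n20 : (u₂ : ℤ) - u ≠ 0 := by
    intro h
    have h1 : ((u₂ : ℝ) - u) = 0 := by exact_mod_cast h
    rw [h1] at h20'
    have : (α * δ - β * γ) * (el (a, b₂) - el (a', b')) = 0 := by
      rcases div_eq_zero_iff.1 h20'.symm with h | h
      · exact h
      · exact absurd h (mul_ne_zero d₂ d)
    rcases mul_eq_zero.1 this with h | h
    · exact hD h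
    · have := el_injective (sub_eq_zero.1 h)
      rw [Prod.mk.injEq] at this
      exact hne this.1.symm
  have n23 : b₂ - b₃ ≠ 0 := by omega
  exact mul_ne_zero (mul_ne_zero n13 n20) n23 (hU ▸ hU0)

/-- A rational-valued Möbius map takes few values on a box of `ℤ[√2]`. -/
theorem moebius_box {α β γ δ : ℝ} (hD : α * δ - β * γ ≠ 0) (K : ℕ) (X : Finset (ℤ × ℤ))
    (hX : X ⊆ Finset.Ico 0 (K : ℤ) ×ˢ Finset.Ico 0 (K : ℤ))
    (hu : ∀ p ∈ X, γ * el p + δ ≠ 0 ∧ ∃ u : ℤ, (α * el p + β) / (γ * el p + δ) = u) :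
    X.card ≤ 2 * K := by
  classical
  by_cases h : ∃ a ∈ Finset.Ico 0 (K : ℤ), 2 < (X.filter fun p => p.1 = a).card
  · obtain ⟨a, -, h2⟩ := h
    obtain ⟨p₁, p₂, p₃, m₁, m₂, m₃, n12, n13, n23⟩ := Finset.two_lt_card_iff.1 h2
    rw [Finset.mem_filter] at m₁ m₂ m₃
    obtain ⟨a₁, b₁⟩ := p₁
    obtain ⟨a₂, b₂⟩ := p₂
    obtain ⟨a₃, b₃⟩ := p₃
    obtain ⟨m₁, r₁⟩ := m₁
    obtain ⟨m₂, r₂⟩ := m₂
    obtain ⟨m₃, r₃⟩ := m₃
    simp only at r₁ r₂ r₃
    subst r₁ r₂ r₃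
    obtain ⟨d₁, u₁, e₁⟩ := hu _ m₁
    obtain ⟨d₂, u₂, e₂⟩ := hu _ m₂
    obtain ⟨d₃, u₃, e₃⟩ := hu _ m₃
    have hall : ∀ p ∈ X, p.1 = a₃ := by
      rintro ⟨a', b'⟩ hp
      obtain ⟨d, u, e⟩ := hu _ hp
      refine moebius_fibre hD ?_ ?_ ?_ d₁ d₂ d₃ d e₁ e₂ e₃ e
      · rintro rfl; exact n12 rfl
      · rintro rfl; exact n13 rfl
      · rintro rfl; exact n23 rfl
    have h3 : X.card ≤ (Finset.Ico 0 (K : ℤ)).card := by
      refine Finset.card_le_card_of_injOn Prod.snd ?_ ?_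
      · intro p hp
        exact (Finset.mem_product.1 (hX hp)).2
      · intro p hp q hq hpq
        exact Prod.ext ((hall p hp).trans (hall q hq).symm) hpq
    rw [Int.card_Ico] at h3
    omega
  · push Not at h
    have h3 := Finset.card_le_mul_card_image_of_maps_to (s := X) (t := Finset.Ico 0 (K : ℤ))
      (f := Prod.fst) (fun p hp => (Finset.mem_product.1 (hX hp)).1) 2 h
    rw [Int.card_Ico] at h3
    omega

/-- The box of `ℤ[√2]`. -/
noncomputable def box (K : ℕ) : Finset (ℤ × ℤ) := Finset.Ico 0 (K : ℤ) ×ˢ Finset.Ico 0 (K : ℤ)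

theorem card_box (K : ℕ) : (box K).card = K ^ 2 := by
  rw [box, Finset.card_product, Int.card_Ico]
  simp [sq]

/-- Dense subsets of products `A × ε ℤ[√2]_K` have no projective image in `ℤ × ℤ`. -/
theorem no_dense {A : Finset ℝ} {ε : ℝ} (hε : ε ≠ 0) {K : ℕ} {c : ℝ} (hc : 2 < c * K)
    (hA : A.Nonempty) {Q : Finset (ℝ × ℝ)}
    (hQ : ∀ q ∈ Q, q.1 ∈ A ∧ ∃ p ∈ box K, q.2 = ε * el p)
    (hcard : c * (A.card * K ^ 2 : ℕ) ≤ Q.card) (s : ℝ) : ¬ InProjectiveSection Q s := by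
  classical
  rintro ⟨T, hT, a, b, -, hm⟩
  have hK : 0 < K := by
    rcases Nat.eq_zero_or_pos K with h | h
    · subst h; norm_num at hc
    · exact h
  have hKr : (0 : ℝ) < K := by exact_mod_cast hK
  -- a popular column
  obtain ⟨x, hx, hxc⟩ : ∃ x ∈ A, c * (K ^ 2 : ℕ) ≤ (Q.filter fun q => q.1 = x).card := by
    by_contra hcon
    push Not at hcon
    have h1 : (Q.card : ℝ) = ∑ x ∈ A, ((Q.filter fun q => q.1 = x).card : ℝ) := by
      rw [← Nat.cast_sum]
      congr 1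
      exact Finset.card_eq_sum_card_fiberwise fun q hq => (hQ q hq).1
    have h2 : ∑ x ∈ A, ((Q.filter fun q => q.1 = x).card : ℝ) < ∑ _x ∈ A, c * (K ^ 2 : ℕ) :=
      Finset.sum_lt_sum_of_nonempty hA hcon
    rw [← h1, Finset.sum_const, nsmul_eq_mul] at h2
    push_cast at h2 hcard
    nlinarith
  set R := Q.filter fun q => q.1 = x with hR
  -- the set of the second coordinates, as a set of pairs
  set X : Finset (ℤ × ℤ) := (box K).filter fun p => (x, ε * el p) ∈ Q with hXdef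
  have hXc : R.card ≤ X.card := by
    have : R ⊆ X.image fun p => (x, ε * el p) := by
      intro q hq
      rw [hR, Finset.mem_filter] at hq
      obtain ⟨-, p, hp, hqp⟩ := hQ q hq.1
      refine Finset.mem_image.2 ⟨p, Finset.mem_filter.2 ⟨hp, ?_⟩, ?_⟩
      · rw [← hqp, ← hq.2]; exact hq.1
      · exact Prod.ext hq.2.symm hqp.symm
    exact (Finset.card_le_card this).trans Finset.card_image_le
  have hRbig : (2 * K : ℝ) < R.card := by
    have : (2 * K : ℝ) < c * (K ^ 2 : ℕ) := by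
      push_cast
      nlinarith
    exact this.trans_le hxc
  have hXbig : 2 * K < X.card := by
    have : (2 * K : ℝ) < X.card := hRbig.trans_le (by exact_mod_cast hXc)
    exact_mod_cast this
  -- the restriction of the projective map to the column
  have hval : ∀ p ∈ X, homog T (x, ε * el p) 2 ≠ 0 ∧
      (∃ u : ℤ, homog T (x, ε * el p) 0 / homog T (x, ε * el p) 2 = u) ∧
      ∃ u : ℤ, homog T (x, ε * el p) 1 / homog T (x, ε * el p) 2 = u := by
    intro p hp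
    obtain ⟨h1, i, -, j, -, h2, h3⟩ := hm _ (Finset.mem_filter.1 hp).2
    exact ⟨h1, ⟨i, by exact_mod_cast h2⟩, ⟨j, by exact_mod_cast h3⟩⟩
  have hh : ∀ (k : Fin 3) (p : ℤ × ℤ), homog T (x, ε * el p) k =
      (T k 1 * ε) * el p + (T k 0 * x + T k 2) := by
    intro k p
    simp only [homog, Matrix.mulVec, dotProduct, Fin.sum_univ_three]
    simp
    ring
  simp only [hh] at hval
  have hXsub : X ⊆ Finset.Ico 0 (K : ℤ) ×ˢ Finset.Ico 0 (K : ℤ) := Finset.filter_subset _ _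
  by_cases h0 : (T 0 1 * ε) * (T 2 0 * x + T 2 2) - (T 0 0 * x + T 0 2) * (T 2 1 * ε) = 0
  swap
  · have := moebius_box h0 K X hXsub fun p hp => ⟨(hval p hp).1, (hval p hp).2.1⟩
    omega
  by_cases h1 : (T 1 1 * ε) * (T 2 0 * x + T 2 2) - (T 1 0 * x + T 1 2) * (T 2 1 * ε) = 0
  swap
  · have := moebius_box h1 K X hXsub fun p hp => ⟨(hval p hp).1, (hval p hp).2.2⟩
    omega
  -- both minors vanish: the matrix is singular
  obtain ⟨p, hp⟩ : X.Nonempty := Finset.card_pos.1 (by omega)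
  have hden := (hval p hp).1
  apply hT
  have h0' : T 0 1 * (T 2 0 * x + T 2 2) - (T 0 0 * x + T 0 2) * T 2 1 = 0 := by
    have : ε * (T 0 1 * (T 2 0 * x + T 2 2) - (T 0 0 * x + T 0 2) * T 2 1) = 0 := by
      linear_combination h0
    exact (mul_eq_zero.1 this).resolve_left hε
  have h1' : T 1 1 * (T 2 0 * x + T 2 2) - (T 1 0 * x + T 1 2) * T 2 1 = 0 := by
    have : ε * (T 1 1 * (T 2 0 * x + T 2 2) - (T 1 0 * x + T 1 2) * T 2 1) = 0 := by
      linear_combination h1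
    exact (mul_eq_zero.1 this).resolve_left hε
  have hz : T 0 1 * (T 1 0 * x + T 1 2) - T 1 1 * (T 0 0 * x + T 0 2) = 0 := by
    by_contra hz
    have z1 : (T 2 0 * x + T 2 2) * (T 0 1 * (T 1 0 * x + T 1 2) - T 1 1 * (T 0 0 * x + T 0 2))
        = 0 := by
      linear_combination (T 1 0 * x + T 1 2) * h0' - (T 0 0 * x + T 0 2) * h1'
    have z2 : T 2 1 * (T 0 1 * (T 1 0 * x + T 1 2) - T 1 1 * (T 0 0 * x + T 0 2)) = 0 := by
      linear_combination T 1 1 * h0' - T 0 1 * h1'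
    have w1 := (mul_eq_zero.1 z1).resolve_right hz
    have w2 := (mul_eq_zero.1 z2).resolve_right hz
    rw [w1, w2] at hden
    simp at hden
  rw [Matrix.det_fin_three]
  linear_combination T 0 0 * h1' - T 1 0 * h0' + T 2 0 * hz

/-- The point set. -/
noncomputable def pts (N M : ℕ) : Finset (ℝ × ℝ) := by
  classical
  exact (box N ×ˢ box (4 * (N * M))).image fun q => (el q.1, -el q.2)

/-- The duals of the lines. -/
noncomputable def duals (N M : ℕ) : Finset (ℝ × ℝ) := by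
  classical
  exact (box M ×ˢ box (N * M)).image fun q => (-el q.1, el q.2)

/-- The set of lines. -/
noncomputable def lns (N M : ℕ) : Finset (Set (ℝ × ℝ)) := by
  classical
  exact (duals N M).image lineOf

theorem mem_pts {N M : ℕ} {p : ℝ × ℝ} :
    p ∈ pts N M ↔ ∃ x ∈ box N, ∃ y ∈ box (4 * (N * M)), p = (el x, -el y) := by
  simp only [pts, Finset.mem_image, Finset.mem_product, Prod.exists]
  constructor
  · rintro ⟨a, b, c, d, ⟨h1, h2⟩, rfl⟩
    exact ⟨a, b, h1, c, d, h2, rfl⟩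
  · rintro ⟨a, b, h1, c, d, h2, rfl⟩
    exact ⟨a, b, c, d, ⟨h1, h2⟩, rfl⟩

theorem mem_duals {N M : ℕ} {p : ℝ × ℝ} :
    p ∈ duals N M ↔ ∃ x ∈ box M, ∃ y ∈ box (N * M), p = (-el x, el y) := by
  simp only [duals, Finset.mem_image, Finset.mem_product, Prod.exists]
  constructor
  · rintro ⟨a, b, c, d, ⟨h1, h2⟩, rfl⟩
    exact ⟨a, b, h1, c, d, h2, rfl⟩
  · rintro ⟨a, b, h1, c, d, h2, rfl⟩
    exact ⟨a, b, c, d, ⟨h1, h2⟩, rfl⟩

theorem mem_lns {N M : ℕ} {ℓ : Set (ℝ × ℝ)} : ℓ ∈ lns N M ↔ ∃ d ∈ duals N M, lineOf d = ℓ := by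
  simp only [lns, Finset.mem_image]

theorem card_pts (N M : ℕ) : (pts N M).card = N ^ 2 * (4 * (N * M)) ^ 2 := by
  classical
  rw [pts, Finset.card_image_of_injective, Finset.card_product, card_box, card_box]
  rintro ⟨a, b⟩ ⟨c, d⟩ h
  simp only [Prod.mk.injEq, neg_inj] at h
  exact Prod.ext (el_injective h.1) (el_injective h.2)

theorem card_duals (N M : ℕ) : (duals N M).card = M ^ 2 * (N * M) ^ 2 := by
  classical
  rw [duals, Finset.card_image_of_injective, Finset.card_product, card_box, card_box]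
  rintro ⟨a, b⟩ ⟨c, d⟩ h
  simp only [Prod.mk.injEq, neg_inj] at h
  exact Prod.ext (el_injective h.1) (el_injective h.2)

theorem lineOf_injective : Function.Injective lineOf := by
  rintro ⟨s, t⟩ ⟨s', t'⟩ h
  have h0 : ((0 : ℝ), -t) ∈ lineOf (s, t) := by simp [lineOf]
  have h1 : ((1 : ℝ), s - t) ∈ lineOf (s, t) := by simp [lineOf]
  rw [h] at h0 h1
  have h0' : -t = s' * 0 - t' := h0
  have h1' : s - t = s' * 1 - t' := h1
  rw [Prod.mk.injEq]
  constructor <;> linarith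

theorem card_lns (N M : ℕ) : (lns N M).card = M ^ 2 * (N * M) ^ 2 := by
  classical
  rw [lns, Finset.card_image_of_injective _ lineOf_injective, card_duals]

theorem isLine_lineOf (d : ℝ × ℝ) : IsLine (lineOf d) := by
  refine ⟨d.1, -1, d.2, Or.inr (by norm_num), ?_⟩
  ext p
  simp only [lineOf, Set.mem_ofPred_eq]
  constructor <;> intro h <;> linarith

theorem incidences_ge (N M : ℕ) : M ^ 2 * (N * M) ^ 2 * N ^ 2 ≤ incidences (pts N M) (lns N M) := by
  classical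
  set f : (ℝ × ℝ) × (ℤ × ℤ) → (ℝ × ℝ) × Set (ℝ × ℝ) :=
    fun q => ((el q.2, q.1.1 * el q.2 - q.1.2), lineOf q.1) with hf
  have hinj : Function.Injective f := by
    rintro ⟨d, x⟩ ⟨d', x'⟩ h
    simp only [hf, Prod.mk.injEq] at h
    exact Prod.ext (lineOf_injective h.2) (el_injective h.1.1)
  have hcard : ((duals N M ×ˢ box N).image f).card = M ^ 2 * (N * M) ^ 2 * N ^ 2 := by
    rw [Finset.card_image_of_injective _ hinj, Finset.card_product, card_duals, card_box]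
  rw [← hcard, incidences, ← Set.ncard_coe_finset]
  refine Set.ncard_le_ncard ?_ ?_
  · rintro q hq
    rw [Finset.mem_coe, Finset.mem_image] at hq
    obtain ⟨⟨d, x⟩, hdx, rfl⟩ := hq
    rw [Finset.mem_product] at hdx
    obtain ⟨hd, hx⟩ := hdx
    simp only at hd hx
    refine ⟨?_, mem_lns.2 ⟨d, hd, rfl⟩, rfl⟩
    obtain ⟨s, hs, t, ht, rfl⟩ := mem_duals.1 hd
    rw [mem_pts]
    refine ⟨x, hx, (s.1 * x.1 + 2 * (s.2 * x.2) + t.1, s.1 * x.2 + s.2 * x.1 + t.2), ?_, ?_⟩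
    · simp only [box, Finset.mem_product, Finset.mem_Ico] at hs ht hx ⊢
      push_cast at ht ⊢
      obtain ⟨⟨s1, s2⟩, s3, s4⟩ := hs
      obtain ⟨⟨t1, t2⟩, t3, t4⟩ := ht
      obtain ⟨⟨x1, x2⟩, x3, x4⟩ := hx
      have b1 : s.1 * x.1 ≤ M * N := mul_le_mul s2.le x2.le x1 (by omega)
      have b2 : s.2 * x.2 ≤ M * N := mul_le_mul s4.le x4.le x3 (by omega)
      have b3 : s.1 * x.2 ≤ M * N := mul_le_mul s2.le x4.le x3 (by omega)
      have b4 : s.2 * x.1 ≤ M * N := mul_le_mul s4.le x2.le x1 (by omega)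
      have c1 : 0 ≤ s.1 * x.1 := mul_nonneg s1 x1
      have c2 : 0 ≤ s.2 * x.2 := mul_nonneg s3 x3
      have c3 : 0 ≤ s.1 * x.2 := mul_nonneg s1 x3
      have c4 : 0 ≤ s.2 * x.1 := mul_nonneg s3 x1
      have e : (M : ℤ) * N = N * M := mul_comm _ _
      rw [e] at b1 b2 b3 b4
      refine ⟨⟨?_, ?_⟩, ?_, ?_⟩ <;> nlinarith
    · have h2 : √2 * √2 = (2 : ℝ) := Real.mul_self_sqrt (by norm_num)
      rw [Prod.mk.injEq]
      refine ⟨rfl, ?_⟩
      simp only [el]
      push_cast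
      linear_combination (-(s.2 : ℝ) * x.2) * h2
  · have : {q : (ℝ × ℝ) × Set (ℝ × ℝ) | q.1 ∈ pts N M ∧ q.2 ∈ lns N M ∧ q.1 ∈ q.2} ⊆
        (((pts N M ×ˢ lns N M : Finset _)) : Set ((ℝ × ℝ) × Set (ℝ × ℝ))) := by
      rintro q ⟨h1, h2, -⟩
      exact Finset.mem_coe.2 (Finset.mem_product.2 ⟨h1, h2⟩)
    exact (Finset.finite_toSet _).subset this

/-- The whole family: alternatives (a) and (b) both fail as soon as `c N M > 2`. -/
theorem family (N M : ℕ) (c C : ℝ) (hc : 2 < c * (N * M)) :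
    ¬ AltA c C (pts N M) ∧ ¬ AltB c C (lns N M) := by
  classical
  have hNM : N ≠ 0 ∧ M ≠ 0 := by
    constructor
    · rintro rfl; norm_num at hc
    · rintro rfl; norm_num at hc
  have hN : (0 : ℝ) < N := by exact_mod_cast Nat.pos_of_ne_zero hNM.1
  have hM : (0 : ℝ) < M := by exact_mod_cast Nat.pos_of_ne_zero hNM.2
  constructor
  · rintro ⟨P', hP', hcard, h⟩
    refine no_dense (A := (box N).image el) (ε := -1) (by norm_num) (K := 4 * (N * M)) (c := c)
      ?_ ?_ ?_ ?_ _ h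
    · push_cast
      nlinarith
    · refine Finset.Nonempty.image ?_ _
      rw [← Finset.card_pos, card_box]
      exact pow_pos (Nat.pos_of_ne_zero hNM.1) 2
    · intro q hq
      obtain ⟨x, hx, y, hy, rfl⟩ := mem_pts.1 (hP' hq)
      exact ⟨Finset.mem_image_of_mem _ hx, y, hy, by ring⟩
    · rw [card_pts] at hcard
      rw [Finset.card_image_of_injective _ el_injective, card_box]
      exact hcard
  · rintro ⟨D', hD', hcard, h⟩
    refine no_dense (A := (box M).image fun x => -el x) (ε := 1) (by norm_num) (K := N * M)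
      (c := c) ?_ ?_ ?_ ?_ _ h
    · push_cast
      exact hc
    · refine Finset.Nonempty.image ?_ _
      rw [← Finset.card_pos, card_box]
      exact pow_pos (Nat.pos_of_ne_zero hNM.2) 2
    · intro q hq
      obtain ⟨d, hd, hdq⟩ := mem_lns.1 (hD' q hq)
      have : d = q := lineOf_injective hdq
      subst this
      obtain ⟨x, hx, y, hy, rfl⟩ := mem_duals.1 hd
      exact ⟨Finset.mem_image_of_mem _ hx, y, hy, by ring⟩
    · rw [card_lns] at hcard
      have hinj : Function.Injective fun x => -el x := neg_injective.comp el_injective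
      rw [Finset.card_image_of_injective _ hinj, card_box]
      exact hcard

/-- **The negated form of Q1**, for balanced configurations: `16 n` points and `n` lines. -/
theorem result : ∃ C₁ c₂ c₃ : ℝ, 0 < C₁ ∧ 0 < c₂ ∧ 0 < c₃ ∧
    ∀ c C : ℝ, 0 < c → 0 < C → ∀ N : ℕ, ∃ m n : ℕ, N ≤ m ∧ N ≤ n ∧
      c₂ * √n ≤ m ∧ (m : ℝ) ≤ C₁ * n ^ 2 ∧ m = 16 * n ∧
      ∃ (P : Finset (ℝ × ℝ)) (L : Finset (Set (ℝ × ℝ))), (∀ ℓ ∈ L, IsLine ℓ) ∧
        P.card = m ∧ L.card = n ∧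
        c₃ * (m : ℝ) ^ (2 / 3 : ℝ) * (n : ℝ) ^ (2 / 3 : ℝ) ≤ incidences P L ∧
        ¬ AltA c C P ∧ ¬ AltB c C L := by
  refine ⟨16, 1, 1 / 16, by norm_num, by norm_num, by norm_num, ?_⟩
  intro c C hc hC N₀
  obtain ⟨k₀, hk₀⟩ := exists_nat_gt (2 / c)
  set k : ℕ := k₀ + N₀ + 1 with hk
  have hk1 : 1 ≤ k := by omega
  have hkr : (1 : ℝ) ≤ k := by exact_mod_cast hk1
  have hkN : N₀ ≤ k ^ 6 := by
    calc N₀ ≤ k := by omega
      _ ≤ k ^ 6 := Nat.le_self_pow (by norm_num) k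
  have hck : 2 < c * k := by
    have h1 : 2 / c < k := hk₀.trans_le (by rw [hk]; push_cast; linarith [Nat.cast_nonneg (α := ℝ) N₀])
    rw [div_lt_iff₀ hc] at h1
    linarith
  have hkk : 2 < c * (k * k) := by nlinarith
  obtain ⟨hA, hB⟩ := family k k c C hkk
  refine ⟨16 * k ^ 6, k ^ 6, by omega, hkN, ?_, ?_, rfl, pts k k, lns k k, ?_, ?_, ?_, ?_, hA, hB⟩
  · have h1 : √((k ^ 6 : ℕ) : ℝ) = (k : ℝ) ^ 3 := by
      rw [Real.sqrt_eq_iff_mul_self_eq (by positivity) (by positivity)]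
      push_cast
      ring
    rw [h1]
    push_cast
    have : (k : ℝ) ^ 3 ≤ (k : ℝ) ^ 6 := pow_le_pow_right₀ hkr (by norm_num)
    nlinarith
  · push_cast
    have : (k : ℝ) ^ 6 ≤ ((k : ℝ) ^ 6) ^ 2 := by
      have h6 : (1 : ℝ) ≤ (k : ℝ) ^ 6 := one_le_pow₀ hkr
      nlinarith
    nlinarith
  · intro ℓ hℓ
    obtain ⟨d, -, rfl⟩ := mem_lns.1 hℓ
    exact isLine_lineOf d
  · rw [card_pts]; ring
  · rw [card_lns]; ring
  · have h1 : ((k ^ 8 : ℕ) : ℝ) ≤ incidences (pts k k) (lns k k) := by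
      have := incidences_ge k k
      have h2 : k ^ 8 = k ^ 2 * (k * k) ^ 2 * k ^ 2 := by ring
      rw [← h2] at this
      exact_mod_cast this
    refine le_trans ?_ h1
    have e1 : ((16 * k ^ 6 : ℕ) : ℝ) ^ (2 / 3 : ℝ) = (16 : ℝ) ^ (2 / 3 : ℝ) * (k : ℝ) ^ 4 := by
      push_cast
      rw [Real.mul_rpow (by norm_num) (by positivity), ← Real.rpow_natCast (k : ℝ) 6,
        ← Real.rpow_mul (by positivity), ← Real.rpow_natCast (k : ℝ) 4]
      norm_num
    have e2 : ((k ^ 6 : ℕ) : ℝ) ^ (2 / 3 : ℝ) = (k : ℝ) ^ 4 := by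
      push_cast
      rw [← Real.rpow_natCast (k : ℝ) 6,
        ← Real.rpow_mul (by positivity), ← Real.rpow_natCast (k : ℝ) 4]
      norm_num
    have e3 : (16 : ℝ) ^ (2 / 3 : ℝ) ≤ 16 := by
      calc (16 : ℝ) ^ (2 / 3 : ℝ) ≤ (16 : ℝ) ^ (1 : ℝ) :=
            Real.rpow_le_rpow_of_exponent_le (by norm_num) (by norm_num)
        _ = 16 := Real.rpow_one 16
    rw [e1, e2]
    push_cast
    have h8 : (0 : ℝ) ≤ (k : ℝ) ^ 8 := by positivity
    calc 1 / 16 * ((16 : ℝ) ^ (2 / 3 : ℝ) * (k : ℝ) ^ 4) * (k : ℝ) ^ 4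
        = (16 : ℝ) ^ (2 / 3 : ℝ) / 16 * (k : ℝ) ^ 8 := by ring
      _ ≤ 1 * (k : ℝ) ^ 8 := by
          refine mul_le_mul_of_nonneg_right ?_ h8
          rw [div_le_one (by norm_num)]
          exact e3
      _ = (k : ℝ) ^ 8 := one_mul _

end Pool.Agent.Results.MP_fad2aa_co.NumberFieldGrid
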